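import Pool.Agent.H68.QC.Targets

/-! Board qc_modules, module ALF: alternating quantifiers over trees are formulas. -/

set_option autoImplicit false

namespace Pool.Agent.H54.QC

open Pool.Agent.H68.QC Pool.Agent.H70.OQ Pool.Agent.H70.RK Pool.Agent.H6.NB Finset

/-- the negation of a tree -/
private def ngt {V : Type} : Pool.Agent.H68.AC.DT V → Pool.Agent.H68.AC.DT V
  | .leaf b => .leaf (!b)
  | .node v l r => .node v (ngt l) (ngt r)

private theorem ngt_depth {V : Type} (T : Pool.Agent.H68.AC.DT V) : (ngt T).depth = T.depth := by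
  induction T with
  | leaf b => rfl
  | node v l r hl hr => simp only [ngt, Pool.Agent.H68.AC.DT.depth, hl, hr]

private theorem ngt_eval {V : Type} (y : V → Bool) (T : Pool.Agent.H68.AC.DT V) :
    (ngt T).eval y = !(T.eval y) := by
  induction T with
  | leaf b => rfl
  | node v l r hl hr =>
    simp only [ngt, Pool.Agent.H68.AC.DT.eval, hl, hr]
    cases y v <;> rfl

/-- the strings of length at most `m` -/
private theorem strs (m : ℕ) : ∃ (N : ℕ) (s : Fin N → List Bool), N ≤ 2 ^ (m + 1) ∧
    (∀ i, (s i).length ≤ m) ∧ ∀ w : List Bool, w.length ≤ m → ∃ i, s i = w := by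
  classical
  induction m with
  | zero =>
    refine ⟨1, fun _ => [], by norm_num, fun _ => by simp, fun w hw => ⟨0, ?_⟩⟩
    exact (List.length_eq_zero_iff.1 (Nat.le_zero.1 hw)).symm
  | succ m ih =>
    -- the strings of length at most `m + 1`: those of length exactly `m + 1` and the shorter ones
    obtain ⟨N, s, hN, h1, h2⟩ := ih
    let e : Fin (2 ^ (m + 1)) ≃ (Fin (m + 1) → Bool) :=
      (Fintype.equivFinOfCardEq (by simp)).symm
    refine ⟨N + 2 ^ (m + 1), fun i => Fin.addCases s (fun i => List.ofFn (e i)) i, ?_, ?_, ?_⟩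
    · calc N + 2 ^ (m + 1) ≤ 2 ^ (m + 1) + 2 ^ (m + 1) := by omega
        _ = 2 ^ (m + 1 + 1) := by ring
    · intro i
      refine Fin.addCases (fun i => ?_) (fun i => ?_) i
      · simp only [Fin.addCases_left]
        exact (h1 i).trans (Nat.le_succ m)
      · simp only [Fin.addCases_right, List.length_ofFn]
        exact le_rfl
    · intro w hw
      rcases Nat.lt_or_ge m w.length with h | h
      · have hl : w.length = m + 1 := le_antisymm hw h
        refine ⟨Fin.natAdd N (e.symm fun i => w.get (i.cast hl.symm)), ?_⟩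
        simp only [Fin.addCases_right, Equiv.apply_symm_apply]
        refine List.ext_getElem (by rw [List.length_ofFn, hl]) fun n h1 h2 => ?_
        rw [List.getElem_ofFn]
        rfl
      · obtain ⟨i, hi⟩ := h2 w h
        exact ⟨Fin.castAdd _ i, by simp only [Fin.addCases_left]; exact hi⟩

theorem pf_ALF (hALT : T_ALT) : T_ALF := by
  intro V m j
  obtain ⟨N, s, hN, hs1, hs2⟩ := strs m
  induction j with
  | zero =>
    intro D tr htr
    refine ⟨fun y => (tr []).eval y, ⟨tr [], htr [], fun y => rfl⟩, fun y => ?_⟩
    simp only [Alt]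
  | succ j ih =>
    intro D tr htr
    have hF : ∀ w : List Bool, ∃ F : (V → Bool) → Bool, Fm (2 ^ (m + 1)) D j F ∧
        ∀ y, F y = true ↔ Alt (fun w => w.length ≤ m) true j
          fun ws => (ngt (tr (w :: ws))).eval y = true :=
      fun w => ih D (fun ws => ngt (tr (w :: ws))) fun ws => by
        rw [ngt_depth]
        exact htr _
    choose F hF1 hF2 using hF
    have hF3 : ∀ (w : List Bool) (y : V → Bool), F w y = false ↔
        Alt (fun w => w.length ≤ m) false j fun ws => (tr (w :: ws)).eval y = true := by
      intro w y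
      have h1 : F w y = false ↔ ¬ F w y = true := by
        cases F w y <;> simp
      rw [h1, hF2 w y, (hALT (fun w => w.length ≤ m) true j
        (fun ws => (ngt (tr (w :: ws))).eval y = true) (fun _ => True)).2]
      have h2 : (fun ws : List (List Bool) => ¬ (ngt (tr (w :: ws))).eval y = true) =
          fun ws => (tr (w :: ws)).eval y = true := by
        funext ws
        rw [ngt_eval]
        cases (tr (w :: ws)).eval y <;> simp
      rw [h2]
      simp only [Bool.not_true]
    classical
    refine ⟨fun y => decide (∃ i, F (s i) y = false), ⟨N, fun i => F (s i), fun _ => false, hN,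
      fun i => hF1 _, fun y => by simp⟩, fun y => ?_⟩
    rw [decide_eq_true_iff]
    simp only [Alt]
    constructor
    · rintro ⟨i, hi⟩
      exact ⟨s i, hs1 i, (hF3 _ _).1 hi⟩
    · rintro ⟨w, hw, h⟩
      obtain ⟨i, hi⟩ := hs2 w hw
      refine ⟨i, ?_⟩
      rw [hi]
      exact (hF3 w y).2 h

end Pool.Agent.H54.QC
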